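import Mathlib

open Set Filter Topology Complex MeasureTheory
open scoped ContDiff

namespace Pool.Agent.H.MP_c4ba3a_an

lemma weak {d : ℕ} {g : (Fin d → ℝ) → ℂ} (hg : ContDiff ℝ 1 g) {Z : (Fin d → ℝ) → Fin d → ℂ}
    (hZ : ContDiff ℝ ∞ Z) (hc : HasCompactSupport Z)
    (h : ∀ p, ∑ l, Z p l * fderiv ℝ g p (Pi.single l 1) = 0) :
    ∫ p, g p * ∑ l, fderiv ℝ (fun q => Z q l) p (Pi.single l 1) = 0 := by
  have z : ∀ l, ContDiff ℝ 1 fun q => Z q l := fun l =>
    (contDiff_pi.1 hZ l).of_le (by exact_mod_cast le_top)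
  have c : ∀ l, HasCompactSupport fun q => Z q l := fun l =>
    hc.comp_left (g := fun v : Fin d → ℂ => v l) rfl
  have dg : ∀ l, Continuous fun p => fderiv ℝ g p (Pi.single l 1) := fun l =>
    (hg.continuous_fderiv one_ne_zero).clm_apply continuous_const
  have i1 : ∀ l, Integrable fun p => fderiv ℝ g p (Pi.single l 1) * Z p l := fun l =>
    ((dg l).mul (z l).continuous).integrable_of_hasCompactSupport (c l).mul_left
  have i2 : ∀ l, Integrable fun p => g p * fderiv ℝ (fun q => Z q l) p (Pi.single l 1) := fun l =>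
    (hg.continuous.mul (((z l).continuous_fderiv one_ne_zero).clm_apply
      continuous_const)).integrable_of_hasCompactSupport ((c l).fderiv_apply ℝ _).mul_left
  simp_rw [Finset.mul_sum]
  rw [integral_finsetSum _ fun l _ => i2 l]
  rw [Finset.sum_congr rfl fun l _ => integral_mul_fderiv_eq_neg_fderiv_mul_of_integrable (i1 l) (i2 l)
    ((hg.continuous.mul (z l).continuous).integrable_of_hasCompactSupport (c l).mul_left)
    (fun x _ => hg.differentiable one_ne_zero x) (fun x _ => (z l).differentiable one_ne_zero x)]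
  rw [Finset.sum_neg_distrib, ← integral_finsetSum _ fun l _ => i1 l]
  simp [mul_comm _ (Z _ _), h]

lemma lim {d : ℕ} {G : ℝ → (Fin d → ℝ) → ℂ} (hG : ContinuousOn G.uncurry (Ici 0 ×ˢ univ))
    {Z : (Fin d → ℝ) → Fin d → ℂ} (hZ : ContDiff ℝ ∞ Z) (hc : HasCompactSupport Z)
    (h : ∀ ε, 0 < ε → ∫ p, G ε p * ∑ l, fderiv ℝ (fun q => Z q l) p (Pi.single l 1) = 0) :
    ∫ p, G 0 p * ∑ l, fderiv ℝ (fun q => Z q l) p (Pi.single l 1) = 0 := by
  have z : ∀ l, ContDiff ℝ 1 fun q => Z q l := fun l =>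
    (contDiff_pi.1 hZ l).of_le (by exact_mod_cast le_top)
  have c : ContinuousOn (fun ε => ∫ p, G ε p * ∑ l, fderiv ℝ (fun q => Z q l) p (Pi.single l 1))
      (Ici 0) := by
    refine continuousOn_integral_of_compact_support hc (hG.mul (Continuous.continuousOn ?_)) ?_
    · exact continuous_finsetSum _ fun l _ => (((z l).continuous_fderiv one_ne_zero).clm_apply
        continuous_const).comp continuous_snd
    · intro ε p _ hp
      rw [Finset.sum_eq_zero, mul_zero]
      intro l _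
      have : (fun q => Z q l) =ᶠ[𝓝 p] fun _ => 0 := by
        filter_upwards [notMem_tsupport_iff_eventuallyEq.1 hp] with q hq using by simp [hq]
      simp [this.fderiv_eq]
  exact tendsto_nhds_unique ((c 0 self_mem_Ici).tendsto.mono_left (nhdsWithin_mono _ Ioi_subset_Ici_self))
    (tendsto_const_nhds.congr' (eventually_nhdsWithin_of_forall fun ε e => (h ε e).symm))

abbrev E := Fin 4 → ℂ
abbrev P := Fin 6 → ℝ

noncomputable def Θ (p : P) : E :=
  ![p 0 + p 1 * I, p 2 + p 3 * I, p 4 + (p 0 ^ 2 + p 1 ^ 2) * I, p 5 + (p 2 ^ 2 + p 3 ^ 2) * I]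

@[fun_prop] lemma ar (i : Fin 6) (p : P) : AnalyticAt ℝ (fun p : P => (p i : ℂ)) p :=
  (ofRealCLM.comp (ContinuousLinearMap.proj (R := ℝ) (φ := fun _ : Fin 6 => ℝ) i)).analyticAt p

lemma aΘ (p : P) : AnalyticAt ℝ Θ p := by
  refine AnalyticAt.pi fun i => ?_
  fin_cases i <;> simp only [Θ, Fin.zero_eta, Fin.mk_one, Fin.reduceFinMk, Matrix.cons_val] <;> fun_prop

lemma dΘ (p a : P) : fderiv ℝ Θ p a = ![a 0 + a 1 * I, a 2 + a 3 * I,
    a 4 + 2 * (p 0 * a 0 + p 1 * a 1) * I, a 5 + 2 * (p 2 * a 2 + p 3 * a 3) * I] := by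
  have h : ∀ i, HasFDerivAt (fun p : P => (p i : ℂ))
      (ofRealCLM.comp (ContinuousLinearMap.proj (R := ℝ) (φ := fun _ : Fin 6 => ℝ) i)) p :=
    fun i => (ofRealCLM.comp (ContinuousLinearMap.proj (R := ℝ) (φ := fun _ : Fin 6 => ℝ) i)).hasFDerivAt
  have k := fun i => hasFDerivAt_pi'.1 (aΘ p).differentiableAt.hasFDerivAt i
  ext i
  fin_cases i
  · simpa [mul_comm] using congrArg (· a) ((k 0).unique ((h 0).add ((h 1).mul_const I)))
  · simpa [mul_comm] using congrArg (· a) ((k 1).unique ((h 2).add ((h 3).mul_const I)))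
  · have := congrArg (· a) ((k 2).unique ((h 4).add ((((h 0).pow 2).add ((h 1).pow 2)).mul_const I)))
    simp at this
    simp [this]; ring
  · have := congrArg (· a) ((k 3).unique ((h 5).add ((((h 2).pow 2).add ((h 3).pow 2)).mul_const I)))
    simp at this
    simp [this]; ring

lemma emb : IsEmbedding Θ := by
  refine Function.LeftInverse.isEmbedding (f := fun z : E =>
    (![(z 0).re, (z 0).im, (z 1).re, (z 1).im, (z 2).re, (z 3).re] : P)) (fun p => ?_) (by fun_prop)
    (continuous_iff_continuousAt.2 fun p => (aΘ p).continuousAt)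
  ext i
  fin_cases i <;> simp [Θ, ← ofReal_pow]

lemma inj (p : P) : Function.Injective (fderiv ℝ Θ p) := by
  refine (injective_iff_map_eq_zero _).2 fun a h => ?_
  rw [dΘ] at h
  have h0 := congrFun h 0
  have h1 := congrFun h 1
  have h2 := congrFun h 2
  have h3 := congrFun h 3
  simp [Complex.ext_iff] at h0 h1 h2 h3
  ext i
  fin_cases i <;> simp [h0, h1, h2, h3]

lemma gen (p : P) (v : E) : ∃ a b, v = fderiv ℝ Θ p a + I • fderiv ℝ Θ p b := by
  refine ⟨![(v 0).re, (v 0).im, (v 1).re, (v 1).im, (v 2).re, (v 3).re],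
    ![0, 0, 0, 0, (v 2).im - 2 * (p 0 * (v 0).re + p 1 * (v 0).im),
      (v 3).im - 2 * (p 2 * (v 1).re + p 3 * (v 1).im)], ?_⟩
  rw [dΘ, dΘ]
  ext i
  fin_cases i <;> simp [Complex.ext_iff]

noncomputable def V (i j k : Fin 6) (c : ℝ) (p : P) : P := Pi.single i 1 + (c * p j) • Pi.single k 1

lemma sV (i j k : Fin 6) (c : ℝ) : ContDiff ℝ ∞ (V i j k c) := by unfold V; fun_prop

lemma dV (i j k : Fin 6) (c : ℝ) (p a : P) : fderiv ℝ (V i j k c) p a = (c * a j) • Pi.single k 1 := by
  have := (((ContinuousLinearMap.proj (R := ℝ) (φ := fun _ : Fin 6 => ℝ) j).hasFDerivAt (x := p)).const_mul c).smul_const (Pi.single k (1 : ℝ) : P) |>.const_add (Pi.single i 1)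
  erw [this.fderiv]
  simp

noncomputable def D (z : E) : ℂ := z 2 * z 3 + I * (z 2 + z 3)
noncomputable def A (z : E) : Fin 3 → ℂ := ![z 2 * z 3 - I * (z 2 + z 3), 2 * z 0 * z 3, 2 * z 1 * z 2]
def W : Set E := {z | normSq (z 0) ≤ (z 2).im ∧ normSq (z 1) ≤ (z 3).im}
noncomputable def g (k : Fin 3) (z : E) : ℂ := 2 * z 0 / (z 2 + I) * (A z k / D z)
noncomputable def f (z : E) : EuclideanSpace ℂ (Fin 5) :=
  !₂[g 0 z, g 1 z, g 2 z, (z 2 - I) / (z 2 + I), 0]
noncomputable def R (z : E) : EuclideanSpace ℂ (Fin 5) :=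
  !₂[2 * z 0 * A z 0, 2 * z 0 * A z 1, 2 * z 0 * A z 2, (z 2 - I) * D z, 0]

lemma key (z : E) : normSq (D z) = normSq (A z 0) + normSq (A z 1) + normSq (A z 2) +
    4 * (normSq (z 2) * ((z 3).im - normSq (z 1)) + normSq (z 3) * ((z 2).im - normSq (z 0))) := by
  simp [D, A, normSq_apply]; ring

lemma le {z : E} (h : z ∈ W) (k : Fin 3) : normSq (A z k) ≤ normSq (D z) := by
  have := key z
  have a := mul_nonneg (normSq_nonneg (z 2)) (sub_nonneg.2 h.2)
  have b := mul_nonneg (normSq_nonneg (z 3)) (sub_nonneg.2 h.1)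
  have c := fun k => normSq_nonneg (A z k)
  fin_cases k <;> simp only [Fin.zero_eta, Fin.mk_one, Fin.reduceFinMk] <;>
    linarith [c 0, c 1, c 2]

lemma s0 {z : E} (h : z ∈ W) : z 2 + I ≠ 0 := fun e => by
  have := congrArg im e
  simp at this
  linarith [h.1, normSq_nonneg (z 0)]

lemma D0 {z : E} (h : z ∈ W) (e : D z = 0) : z = 0 := by
  have a := le h 0
  rw [e, map_zero] at a
  have b := normSq_eq_zero.1 (le_antisymm a (normSq_nonneg _))
  simp only [A, Matrix.cons_val, D] at b e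
  have c : z 2 * z 3 = 0 := by linear_combination (b + e) / 2
  have d : z 2 + z 3 = 0 := by linear_combination I * (b - e) / 2 + (z 2 + z 3) * I_mul_I
  have x : z 2 = 0 := by
    rcases mul_eq_zero.1 c with c | c
    · exact c
    · simpa [c] using d
  have y : z 3 = 0 := by simpa [x] using d
  have u := h.1
  have v := h.2
  rw [x] at u
  rw [y] at v
  ext i
  fin_cases i
  · exact normSq_eq_zero.1 (le_antisymm u (normSq_nonneg _))
  · exact normSq_eq_zero.1 (le_antisymm v (normSq_nonneg _))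
  · exact x
  · exact y

@[fun_prop] lemma an (i : Fin 4) (w : E) : AnalyticAt ℂ (fun w : E => w i) w :=
  (ContinuousLinearMap.proj (R := ℂ) (φ := fun _ : Fin 4 => ℂ) i).analyticAt w

lemma aD (w : E) : AnalyticAt ℂ D w := by unfold D; fun_prop

lemma aA (k : Fin 3) (w : E) : AnalyticAt ℂ (fun z => A z k) w := by
  fin_cases k <;> simp only [A, Fin.zero_eta, Fin.mk_one, Fin.reduceFinMk, Matrix.cons_val] <;> fun_prop

lemma q1 {z : E} (h : z ∈ W) : AnalyticAt ℂ (fun z : E => 2 * z 0 / (z 2 + I)) z :=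
  AnalyticAt.div (f := fun z : E => 2 * z 0) (g := fun z : E => z 2 + I) (by fun_prop) (by fun_prop) (s0 h)

lemma q2 {z : E} (h : z ∈ W) : AnalyticAt ℂ (fun z : E => (z 2 - I) / (z 2 + I)) z :=
  AnalyticAt.div (f := fun z : E => z 2 - I) (g := fun z : E => z 2 + I) (by fun_prop) (by fun_prop) (s0 h)

lemma af {z : E} (h : z ∈ W) (e : z ≠ 0) (j : Fin 5) : AnalyticAt ℂ (fun z => f z j) z := by
  have a : ∀ k, AnalyticAt ℂ (g k) z := fun k =>
    (q1 h).mul ((aA k z).div (aD z) fun d => e (D0 h d))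
  fin_cases j
  exacts [a 0, a 1, a 2, q2 h, analyticAt_const (v := 0)]

lemma cf (j : Fin 5) : ContinuousOn (fun z => f z j) W := by
  intro z h
  by_cases e : z = 0
  swap
  · exact (af h e j).continuousAt.continuousWithinAt
  subst e
  have c := (q1 h).continuousAt
  have a : ∀ k, ContinuousWithinAt (g k) W 0 := fun k => by
    have : g k 0 = 0 := by simp [g]
    rw [ContinuousWithinAt, this]
    refine squeeze_zero_norm' (a := fun z => ‖2 * z 0 / (z 2 + I)‖)
      (eventually_nhdsWithin_of_forall fun z hz => ?_) (tendsto_nhdsWithin_of_tendsto_nhds ?_)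
    · have := le hz k
      rw [normSq_eq_norm_sq, normSq_eq_norm_sq] at this
      rw [g, norm_mul, norm_div (A z k)]
      exact mul_le_of_le_one_right (norm_nonneg _) (div_le_one_of_le₀
        (abs_le_of_sq_le_sq' this (norm_nonneg _)).2 (norm_nonneg _))
    · simpa using c.norm.tendsto
  fin_cases j
  exacts [a 0, a 1, a 2, (q2 h).continuousAt.continuousWithinAt, continuousWithinAt_const (b := 0)]

lemma on (p : P) : normSq (Θ p 0) = (Θ p 2).im ∧ normSq (Θ p 1) = (Θ p 3).im := by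
  simp [Θ, normSq_apply, sq]

lemma mem (p : P) : Θ p ∈ W := ⟨(on p).1.le, (on p).2.le⟩

lemma ne {p : P} (h : p ≠ 0) : Θ p ≠ 0 := fun e => h (emb.injective (e.trans (by
  ext i; fin_cases i <;> simp [Θ])))

lemma nrm (p : P) : ‖f (Θ p)‖ = 1 := by
  have s := normSq_pos.2 (s0 (mem p))
  have o := on p
  have : ‖f (Θ p)‖ ^ 2 = 1 := by
    rw [EuclideanSpace.norm_sq_eq, Fin.sum_univ_five]
    simp only [f, g, Matrix.cons_val, ← normSq_eq_norm_sq, normSq_mul, normSq_div, map_zero]
    by_cases h : Θ p = 0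
    · simp [h]
    have d := normSq_pos.2 fun e => h (D0 (mem p) e)
    have k := key (Θ p)
    rw [← o.1, ← o.2] at k
    have e : normSq (Θ p 2 + I) = normSq (Θ p 2 - I) + 4 * normSq (Θ p 0) := by
      rw [o.1]; simp [normSq_apply]; ring
    field_simp
    rw [e, k]
    simp; ring
  nlinarith [norm_nonneg (f (Θ p))]

lemma mer {z : E} (h : z ∈ W) (e : z ≠ 0) : f z = ((z 2 + I) * D z)⁻¹ • R z := by
  have := s0 h
  have d : D z ≠ 0 := fun d => e (D0 h d)
  ext j
  fin_cases j <;> simp [f, g, R] <;> field_simp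

lemma cr (j : Fin 5) {Z : P → Fin 6 → ℂ} (hZ : ContDiff ℝ ∞ Z) (hc : HasCompactSupport Z)
    (h : ∀ p, ∑ l, Z p l • fderiv ℝ Θ p (Pi.single l 1) = 0) :
    ∫ p, f (Θ p) j * ∑ l, fderiv ℝ (fun q => Z q l) p (Pi.single l 1) = 0 := by
  have cΘ := emb.continuous
  have m : ∀ ε : ℝ, 0 ≤ ε → ∀ p, Θ p + ![0, 0, ε * I, ε * I] ∈ W := fun ε e p =>
    ⟨by simpa using (on p).1.le.trans (le_add_of_nonneg_right e),
     by simpa using (on p).2.le.trans (le_add_of_nonneg_right e)⟩
  have := lim (G := fun ε p => f (Θ p + ![0, 0, ε * I, ε * I]) j)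
    ((cf j).comp (f := fun x : ℝ × P => Θ x.2 + ![0, 0, x.1 * I, x.1 * I]) (by fun_prop)
      fun x hx => m _ hx.1 _) hZ hc fun ε e => by
      have a : ∀ p, AnalyticAt ℂ (fun z => f z j) (Θ p + ![0, 0, ε * I, ε * I]) := fun p =>
        af (m ε e.le p) (fun k => by
          have := congrArg im (congrFun k 2)
          simp at this
          linarith [(on p).1, normSq_nonneg (Θ p 0)]) j
      refine weak (contDiff_iff_contDiffAt.2 fun p => ?_) hZ hc fun p => ?_
      · exact ((a p).restrictScalars (𝕜 := ℝ)).contDiffAt.comp p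
          ((aΘ p).contDiffAt.add contDiffAt_const)
      · have := ((a p).differentiableAt.hasFDerivAt.restrictScalars ℝ).comp p
          ((aΘ p).differentiableAt.hasFDerivAt.add_const _)
        erw [this.fderiv]
        simpa [map_sum] using congrArg (fderiv ℂ (fun z => f z j) (Θ p + ![0, 0, ε * I, ε * I])) (h p)
  have z : (![0, 0, 0, 0] : E) = 0 := by ext i; fin_cases i <;> rfl
  simpa [z] using this

lemma noext {U : Set E} (hU : U ∈ 𝓝 (Θ 0)) {F : E → EuclideanSpace ℂ (Fin 5)}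
    (hF : DifferentiableOn ℂ F U) (h : ∀ p, Θ p ∈ U → F (Θ p) = f (Θ p)) : False := by
  have z : Θ 0 = 0 := by ext i; fin_cases i <;> simp [Θ]
  obtain ⟨r, r0, hr⟩ := Metric.mem_nhds_iff.1 (inter_mem (z ▸ hU) (Metric.ball_mem_nhds 0 one_pos))
  obtain ⟨x, x0, x1, xr⟩ : ∃ x : ℝ, 0 < x ∧ x < 1 ∧ x < r :=
    ⟨min r 1 / 2, by positivity, by linarith [min_le_right r 1], by linarith [min_le_left r 1]⟩
  have x2 : x ^ 2 < r := by nlinarith
  let c : ℂ → E := fun t => ![x, 0, x ^ 2 * I, t]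
  have dc : Differentiable ℂ c := differentiable_pi.2 fun i => by
    fin_cases i <;> simp only [c, Fin.zero_eta, Fin.mk_one, Fin.reduceFinMk, Matrix.cons_val] <;> fun_prop
  have mc : ∀ t ∈ Metric.ball (0 : ℂ) r, c t ∈ U := fun t ht => by
    refine (hr ?_).1
    rw [mem_ball_zero_iff, pi_norm_lt_iff r0]
    intro i
    fin_cases i
    · simpa [c, abs_of_pos x0]
    · simpa [c]
    · simpa [c]
    · simpa [c] using ht
  have a : AnalyticOnNhd ℂ (fun t => (c t 2 + I) * D (c t) * F (c t) 0 - 2 * c t 0 * A (c t) 0)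
      (Metric.ball 0 r) := by
    refine DifferentiableOn.analyticOnNhd (fun t ht => ?_) Metric.isOpen_ball
    have b := dc t
    have e := fun i => (an i (c t)).differentiableAt.comp t b
    refine (((((e 2).add_const I).mul ((aD _).differentiableAt.comp t b)).differentiableWithinAt.mul
      ?_).sub (((e 0).const_mul 2).mul ((aA 0 _).differentiableAt.comp t b)).differentiableWithinAt)
    exact (EuclideanSpace.proj (𝕜 := ℂ) (0 : Fin 5)).differentiableAt.comp_differentiableWithinAt t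
      ((hF _ (mc t ht)).comp t b.differentiableWithinAt mc)
  have e := a.eqOn_zero_of_preconnected_of_frequently_eq_zero (convex_ball 0 r).isPreconnected
    (Metric.mem_ball_self r0) (by
      have t : Tendsto (fun s : ℝ => (s : ℂ)) (𝓝[≠] 0) (𝓝[≠] 0) :=
        tendsto_nhdsWithin_iff.2 ⟨tendsto_nhdsWithin_of_tendsto_nhds
          (by simpa using continuous_ofReal.tendsto 0), eventually_nhdsWithin_of_forall fun s => by simp⟩
      refine t.frequently (Eventually.frequently ?_)
      filter_upwards [t (nhdsWithin_le_nhds (Metric.ball_mem_nhds 0 r0))] with s hs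
      have k : c s = Θ ![x, 0, 0, 0, 0, s] := by ext i; fin_cases i <;> simp [Θ, c]
      have n : c s ≠ 0 := fun e => by simpa [c, x0.ne'] using congrFun e 0
      have w : c s ∈ W := k ▸ mem _
      have := s0 w
      have d : D (c s) ≠ 0 := fun d => n (D0 w d)
      have l : F (c s) = f (c s) := by rw [k]; exact h _ (k ▸ mc _ hs)
      rw [l, mer w n]
      simp [R]; field_simp; ring)
  have p : (1 + x ^ 2 : ℂ) ≠ 0 := by exact_mod_cast (by positivity : (1 + x ^ 2 : ℝ) ≠ 0)
  have := e (x := -(x ^ 2 / (1 + x ^ 2) : ℝ) * I) (by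
    rw [mem_ball_zero_iff, norm_mul, norm_neg, norm_real, norm_I, mul_one,
      Real.norm_of_nonneg (by positivity)]
    exact (div_le_self (by positivity) (by nlinarith)).trans_lt x2)
  have d : D (c (-(x ^ 2 / (1 + x ^ 2) : ℝ) * I)) = 0 := by
    simp [D, c]; field_simp; ring_nf
  have b : A (c (-(x ^ 2 / (1 + x ^ 2) : ℝ) * I)) 0 = 2 * x ^ 4 / (1 + x ^ 2) := by
    simp [A, c]; field_simp; ring_nf; simp
  simp only [d, b] at this
  simp [c, x0.ne', p] at this

end Pool.Agent.H.MP_c4ba3a_an
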